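import Pool.Agent.N437.SQ.Stm

/-!
# Project SQ, leaf F6: translation to subgraphs
-/

set_option autoImplicit false

namespace Pool.Agent.N905.SQ

open Finset Pool.Agent.N437.SQ

theorem t_F6 (h : S_F6A) : S_F6 := by
  intro q L C k φ hC hk hq hG H hne hall
  classical
  set S : Finset (Fin (q ^ (3 ^ L)) × Fin L) := univ.filter fun e =>
    H.Adj (Sum.inl e.1) (Sum.inr ⟨e.2, φ e.1 e.2⟩) with hS
  have hmem : ∀ e, e ∈ S ↔ H.Adj (Sum.inl e.1) (Sum.inr ⟨e.2, φ e.1 e.2⟩) := by
    intro e
    rw [hS, Finset.mem_filter]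
    exact ⟨fun h => h.2, fun h => ⟨Finset.mem_univ _, h⟩⟩
  refine h q L C k φ hC hk hq hG S ?_ ?_ ?_
  · obtain ⟨x, hx⟩ := hne
    have h1 := (hall x hx).1
    have h2 : (H.neighborSet x).Nonempty := by
      apply Set.nonempty_of_ncard_ne_zero
      omega
    obtain ⟨y, hy⟩ := h2
    have hxy : H.Adj x y := hy
    rcases H.adj_sub hxy with ⟨a, i, rfl, rfl⟩ | ⟨a, i, rfl, rfl⟩
    · exact ⟨(a, i), (hmem _).2 hxy⟩
    · exact ⟨(a, i), (hmem _).2 hxy.symm⟩
  · intro e he
    have hadj := (hmem e).1 he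
    have hv : (Sum.inl e.1 : Fin (q ^ (3 ^ L)) ⊕ Lay q L) ∈ H.verts := H.edge_vert hadj
    have h1 := hall _ hv
    have h2 : (H.neighborSet (Sum.inl e.1)).ncard = (S.filter fun f => f.1 = e.1).card := by
      rw [← Set.ncard_coe_finset]
      symm
      refine Set.ncard_congr (fun f _ => Sum.inr ⟨f.2, φ f.1 f.2⟩) ?_ ?_ ?_
      · intro f hf
        rw [Finset.mem_coe, Finset.mem_filter] at hf
        have h3 := (hmem f).1 hf.1
        rw [hf.2] at h3
        show H.Adj (Sum.inl e.1) (Sum.inr ⟨f.2, φ f.1 f.2⟩)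
        rw [hf.2]
        exact h3
      · intro f g hf hg hfg
        rw [Finset.mem_coe, Finset.mem_filter] at hf hg
        have h4 := congrArg Sigma.fst (Sum.inr_injective hfg)
        exact Prod.ext (hf.2.trans hg.2.symm) h4
      · intro y hy
        have hy' : H.Adj (Sum.inl e.1) y := hy
        rcases H.adj_sub hy' with ⟨a, i, ha, rfl⟩ | ⟨a, i, _, hb⟩
        · have ha' : e.1 = a := Sum.inl_injective ha
          subst ha'
          refine ⟨(e.1, i), ?_, rfl⟩
          rw [Finset.mem_coe, Finset.mem_filter]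
          exact ⟨(hmem _).2 hy', rfl⟩
        · exact absurd hb (by simp)
    rw [← h2]
    exact h1
  · intro e he
    have hadj := (hmem e).1 he
    have hv : (Sum.inr ⟨e.2, φ e.1 e.2⟩ : Fin (q ^ (3 ^ L)) ⊕ Lay q L) ∈ H.verts :=
      H.edge_vert hadj.symm
    have h1 := hall _ hv
    have h2 : (H.neighborSet (Sum.inr ⟨e.2, φ e.1 e.2⟩)).ncard =
        (S.filter fun f => f.2 = e.2 ∧ φ f.1 e.2 = φ e.1 e.2).card := by
      rw [← Set.ncard_coe_finset]
      symm
      refine Set.ncard_congr (fun f _ => Sum.inl f.1) ?_ ?_ ?_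
      · intro f hf
        rw [Finset.mem_coe, Finset.mem_filter] at hf
        have h3 := (hmem f).1 hf.1
        show H.Adj (Sum.inr ⟨e.2, φ e.1 e.2⟩) (Sum.inl f.1)
        rw [hf.2.1, hf.2.2] at h3
        exact h3.symm
      · intro f g hf hg hfg
        rw [Finset.mem_coe, Finset.mem_filter] at hf hg
        exact Prod.ext (Sum.inl_injective hfg) (hf.2.1.trans hg.2.1.symm)
      · intro y hy
        have hy' : H.Adj (Sum.inr ⟨e.2, φ e.1 e.2⟩) y := hy
        rcases H.adj_sub hy' with ⟨a, i, ha, _⟩ | ⟨a, i, rfl, hb⟩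
        · exact absurd ha (by simp)
        · have hb' := Sum.inr_injective hb
          have hi : e.2 = i := congrArg Sigma.fst hb'
          subst hi
          have hφ : φ e.1 e.2 = φ a e.2 := by
            have := (Sigma.mk.inj_iff.1 hb').2
            exact eq_of_heq this
          refine ⟨(a, e.2), ?_, rfl⟩
          rw [Finset.mem_coe, Finset.mem_filter]
          refine ⟨(hmem _).2 ?_, rfl, hφ.symm⟩
          show H.Adj (Sum.inl a) (Sum.inr ⟨e.2, φ a e.2⟩)
          rw [← hφ]
          exact hy'.symm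
    rw [← h2]
    exact h1

end Pool.Agent.N905.SQ
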